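import Pool.Agent.H15.OOC
import Pool.Agent.H15.OPB
import Pool.Agent.H15.OPDual

set_option autoImplicit false

namespace Pool.Agent.Results.MP_f38362_gt.AllForms

open Pool.Agent.H15

/-- In ZFC: (i) there is a nonempty Hausdorff space on which both the open-point game of Berner and
Juhász and the selection game on dense subsets are undetermined; (ii) there is a nonempty compact
Hausdorff space on which the game `G₁(𝒟,𝒟)`, where `𝒟` is the collection of families of open sets
with dense union, is undetermined. -/
theorem result :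
    (∃ (X : Type) (_ : TopologicalSpace X), Nonempty X ∧ T2Space X ∧ OP.Undetermined X ∧
      OP.DUndetermined X) ∧
    (∃ (X : Type) (_ : TopologicalSpace X), Nonempty X ∧ CompactSpace X ∧ T2Space X ∧
      OO.Undetermined X) := by
  constructor
  · obtain ⟨X, t, ⟨x₀⟩, h1, h2⟩ := OP.main_op
    exact ⟨X, t, ⟨x₀⟩, h1, h2, OP.dual x₀ h2⟩
  · obtain ⟨X, t, h1, h2, h3⟩ := OO.main
    refine ⟨X, t, ?_, h1, h2, h3⟩
    rcases isEmpty_or_nonempty X with h | h
    · exfalso
      exact h3.1 ⟨fun _ => ∅, fun _ => ⟨fun U hU => hU.elim, fun x => (h.false x).elim⟩,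
        fun U hU => (hU 0).elim⟩
    · exact h

end Pool.Agent.Results.MP_f38362_gt.AllForms
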