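import Pool.Agent.H15.OOC
import Pool.Agent.H15.OPB

set_option autoImplicit false

namespace Pool.Agent.Results.MP_f38362_gt.OpenPoint

open Pool.Agent.H15

/-- In ZFC: there is a nonempty Hausdorff space on which the open-point game of Berner and Juhász is
undetermined, and there is a nonempty compact Hausdorff space on which the game `G₁(𝒟,𝒟)`, where `𝒟`
is the collection of families of open sets with dense union, is undetermined. -/
theorem result :
    (∃ (X : Type) (_ : TopologicalSpace X), Nonempty X ∧ T2Space X ∧ OP.Undetermined X) ∧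
    (∃ (X : Type) (_ : TopologicalSpace X), Nonempty X ∧ CompactSpace X ∧ T2Space X ∧
      OO.Undetermined X) := by
  refine ⟨OP.main_op, ?_⟩
  obtain ⟨X, t, h1, h2, h3⟩ := OO.main
  refine ⟨X, t, ?_, h1, h2, h3⟩
  rcases isEmpty_or_nonempty X with h | h
  · exfalso
    exact h3.1 ⟨fun _ => ∅, fun _ => ⟨fun U hU => hU.elim, fun x => (h.false x).elim⟩,
      fun U hU => (hU 0).elim⟩
  · exact h

end Pool.Agent.Results.MP_f38362_gt.OpenPoint
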