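import Pool.Agent.H15.OOC

set_option autoImplicit false

namespace Pool.Agent.Results.MP_f38362_gt.Undetermined

open Pool.Agent.H15.OO

/-- There is (in ZFC) a compact Hausdorff space on which the game `G₁(𝒟,𝒟)` is undetermined. -/
theorem result : ∃ (X : Type) (_ : TopologicalSpace X), CompactSpace X ∧ T2Space X ∧
    Undetermined X :=
  main

end Pool.Agent.Results.MP_f38362_gt.Undetermined
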